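import Mathlib
import Pool.Agent.R222.Dust.Defs
import Pool.Agent.R222.Dust.Main

/-!
# The Cantor dust is c-removable

Every continuous function on the plane which is locally convex off `C × C`, where `C` is the
middle-thirds Cantor set, is convex.

Idea of the proof. The function is convex on all horizontal and all vertical lines. Averages of the
function over short horizontal segments, taken along a line in any other direction, have second
differences bounded below by a multiple of the square of the step, and are convex off the null set
`C`; a contact argument in the manner of Alexandrov shows that they are convex.
-/

set_option autoImplicit false

namespace Pool.Agent.Results.MP_95ad2c_an.CantorDust

open Pool.Agent.R222.Dust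

/-- The Cantor dust `C × C` is c-removable. -/
theorem result : CRemovable (cantorSet ×ˢ cantorSet) := cRemovable_cantorDust

end Pool.Agent.Results.MP_95ad2c_an.CantorDust
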